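import Pool.Agent.N912.PY.Stm

/-!
Project PY (helper912), part PY3: a common multiplier.
-/

set_option autoImplicit false

namespace Pool.Agent.N80.PY.D3

open Finset Filter Pool.Agent.N912.PY

theorem uex (k l₀ n₀ D' cX : ℕ) (hD' : l₀ ≤ D')
    (hc : cX ≡ n₀ [MOD k ^ l₀]) (h1 : n₀ + k ^ D' * n₀ ≤ cX) (h2 : cX < (n₀ + 1) * k ^ D') :
    ∃ u, u < k ^ (D' - l₀) ∧ cX = n₀ + k ^ l₀ * u + k ^ D' * n₀ := by
  have hK : k ^ D' = k ^ l₀ * k ^ (D' - l₀) := by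
    rw [← pow_add, Nat.add_sub_cancel' hD']
  have h3 : n₀ + k ^ D' * n₀ ≡ cX [MOD k ^ l₀] := by
    refine Nat.ModEq.trans ?_ hc.symm
    have h4 : k ^ D' * n₀ ≡ 0 [MOD k ^ l₀] := by
      rw [Nat.modEq_zero_iff_dvd, hK, mul_assoc]
      exact Dvd.intro _ rfl
    simpa using Nat.ModEq.add_left n₀ h4
  obtain ⟨u, hu⟩ := (Nat.modEq_iff_dvd' h1).1 h3
  have hcx : cX = n₀ + k ^ l₀ * u + k ^ D' * n₀ := by omega
  refine ⟨u, ?_, hcx⟩
  have h5 : k ^ l₀ * u < k ^ l₀ * k ^ (D' - l₀) := by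
    rw [← hK]
    have h6 : (n₀ + 1) * k ^ D' = k ^ D' * n₀ + k ^ D' := by ring
    omega
  exact Nat.lt_of_mul_lt_mul_left h5

theorem d3 : S_D3 := by
  intro k hk n₀ l₀ hn0 hn
  refine ⟨1 / (16 * ((n₀ : ℝ) + 1)), by positivity, ?_⟩
  intro s x y z hx hy hz hxy hyz hcop h1 h2
  obtain ⟨K, hK⟩ : ∃ K, K = k ^ l₀ := ⟨_, rfl⟩
  rw [← hK] at hxy hyz hn
  have hK0 : 0 < K := by omega
  have hcopK : Nat.Coprime x K := by
    rw [hK]
    exact Nat.Coprime.pow_right _ hcop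
  -- the residue class
  obtain ⟨v, hv⟩ : ∃ v, v * x ≡ n₀ [MOD K] := by
    obtain ⟨w, -, hw⟩ := Nat.exists_mul_mod_eq_one_of_coprime hcopK (by omega)
    refine ⟨n₀ * w, ?_⟩
    have : x * w ≡ 1 [MOD K] := by
      rw [Nat.ModEq, hw, Nat.mod_eq_of_lt (by omega)]
    have h3 := this.mul_left n₀
    rw [mul_one] at h3
    have e1 : n₀ * w * x = n₀ * (x * w) := by ring
    rw [e1]
    exact h3
  refine ⟨s + l₀ + 4 + y, fun D hD => ⟨by omega, ?_⟩⟩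
  have hbig : 16 * K * y ≤ k ^ (D - s) := by
    have e1 : k ^ (D - s) = K * k ^ 4 * k ^ y * k ^ (D - s - l₀ - 4 - y) := by
      rw [hK, ← pow_add, ← pow_add, ← pow_add]
      congr 1
      omega
    have h3 : 2 ^ 4 ≤ k ^ 4 := Nat.pow_le_pow_left hk 4
    have h4 : y ≤ k ^ y := (Nat.lt_pow_self (by omega)).le
    have h5 : 1 ≤ k ^ (D - s - l₀ - 4 - y) := Nat.one_le_pow _ _ (by omega)
    calc 16 * K * y = K * 2 ^ 4 * y * 1 := by ring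
      _ ≤ K * k ^ 4 * k ^ y * k ^ (D - s - l₀ - 4 - y) := by gcongr
      _ = _ := e1.symm
  have hDs : k ^ D = k ^ s * k ^ (D - s) := by
    rw [← pow_add]
    congr 1
    omega
  have hbig2 : 16 * K * y ≤ k ^ D := by
    rw [hDs]
    exact hbig.trans (Nat.le_mul_of_pos_left _ (Nat.pow_pos (by omega)))
  -- the multiplier
  obtain ⟨m, hm⟩ : ∃ m, m = (2 * n₀ + 1) * k ^ D / (2 * y) + 1 := ⟨_, rfl⟩
  have hm1 : (2 * n₀ + 1) * k ^ D < 2 * y * m := by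
    rw [hm]
    exact Nat.lt_mul_div_succ _ (by omega)
  have hm2 : 2 * y * (m - 1) ≤ (2 * n₀ + 1) * k ^ D := by
    rw [hm, Nat.add_sub_cancel]
    exact Nat.mul_div_le _ _
  obtain ⟨c₀, hcm, hcm2, hcv⟩ : ∃ c₀, m ≤ c₀ ∧ c₀ < m + K ∧ c₀ ≡ v [MOD K] := by
    refine ⟨m + (v + K * m - m) % K, Nat.le_add_right _ _,
      Nat.add_lt_add_left (Nat.mod_lt _ hK0) _, ?_⟩
    have h3 : m + (v + K * m - m) % K ≡ m + (v + K * m - m) [MOD K] :=
      Nat.ModEq.add_left m (Nat.mod_modEq _ _)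
    have h4 : m ≤ K * m := Nat.le_mul_of_pos_left _ hK0
    have e1 : m + (v + K * m - m) = v + K * m := by omega
    rw [e1] at h3
    refine h3.trans ?_
    have h5 : K * m ≡ 0 [MOD K] := by
      rw [Nat.modEq_zero_iff_dvd]
      exact Dvd.intro _ rfl
    exact Nat.ModEq.add_left v h5
  have hm0 : 0 < m := by rw [hm]; exact Nat.succ_pos _
  have hc0 : 0 < c₀ := by omega
  have hcx : c₀ * x ≡ n₀ [MOD K] := (hcv.mul_right x).trans hv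
  have hcy : c₀ * y ≡ n₀ [MOD K] := (hxy.symm.mul_left c₀).trans hcx
  have hcz : c₀ * z ≡ n₀ [MOD K] := (hyz.symm.mul_left c₀).trans hcy
  -- the bounds
  obtain ⟨A, hA⟩ : ∃ A : ℝ, A = (k : ℝ) ^ D := ⟨_, rfl⟩
  obtain ⟨A', hA'⟩ : ∃ A' : ℝ, A' = (k : ℝ) ^ (D - s) := ⟨_, rfl⟩
  have hkR : (0 : ℝ) < k := by exact_mod_cast (by omega : 0 < k)
  have hApos : 0 < A := by rw [hA]; positivity
  have hA'pos : 0 < A' := by rw [hA']; positivity
  have hyR : (1 : ℝ) ≤ y := by exact_mod_cast hy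
  have hKR : (0 : ℝ) < K := by exact_mod_cast hK0
  have hnR : (0 : ℝ) < n₀ := by exact_mod_cast hn0
  have hnK : (n₀ : ℝ) < K := by exact_mod_cast hn
  have hAs : A = (k : ℝ) ^ s * A' := by
    rw [hA, hA']
    exact_mod_cast hDs
  have hbR : 16 * (K : ℝ) * y ≤ A' := by rw [hA']; exact_mod_cast hbig
  have hbR2 : 16 * (K : ℝ) * y ≤ A := by rw [hA]; exact_mod_cast hbig2
  have hKA' : 16 * (K : ℝ) ≤ A' := by nlinarith
  have hKA : 16 * (K : ℝ) ≤ A := by nlinarith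
  have g1 : (2 * (n₀ : ℝ) + 1) * A ≤ 2 * (c₀ * y) := by
    have h3 : (2 * n₀ + 1) * k ^ D ≤ 2 * (c₀ * y) := by
      refine hm1.le.trans ?_
      have : 2 * y * m ≤ 2 * y * c₀ := Nat.mul_le_mul_left _ hcm
      linarith
    rw [hA]
    exact_mod_cast h3
  have g2 : 2 * ((c₀ : ℝ) * y) ≤ (2 * (n₀ : ℝ) + 1) * A + 2 * (K * y) := by
    have h3 : 2 * (c₀ * y) ≤ (2 * n₀ + 1) * k ^ D + 2 * (K * y) := by
      have h4 : c₀ ≤ (m - 1) + K := by omega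
      calc 2 * (c₀ * y) ≤ 2 * (((m - 1) + K) * y) := by gcongr
        _ = 2 * y * (m - 1) + 2 * (K * y) := by ring
        _ ≤ _ := Nat.add_le_add_right hm2 _
    rw [hA]
    exact_mod_cast h3
  have g3 : (c₀ : ℝ) * y ≤ ((n₀ : ℝ) + 9 / 16) * A := by nlinarith
  have g4 : ((n₀ : ℝ) + 1 / 2) * A ≤ (c₀ : ℝ) * y := by nlinarith
  have hcR : (0 : ℝ) < c₀ := by exact_mod_cast hc0
  have herr : ∀ w : ℝ, |w - y| ≤ 1 / (16 * ((n₀ : ℝ) + 1)) * y → |c₀ * w - c₀ * y| ≤ A / 16 := by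
    intro w hw
    have e1 : (c₀ : ℝ) * w - c₀ * y = c₀ * (w - y) := by ring
    rw [e1, abs_mul, abs_of_pos hcR]
    calc (c₀ : ℝ) * |w - y| ≤ c₀ * (1 / (16 * ((n₀ : ℝ) + 1)) * y) :=
          mul_le_mul_of_nonneg_left hw hcR.le
      _ = (c₀ * y) / (16 * ((n₀ : ℝ) + 1)) := by ring
      _ ≤ (((n₀ : ℝ) + 1) * A) / (16 * ((n₀ : ℝ) + 1)) := by
          apply div_le_div_of_nonneg_right _ (by positivity)
          nlinarith
      _ = A / 16 := by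
          field_simp
  have hex := herr _ h1
  have hez := herr _ h2
  rw [abs_le] at hex hez
  obtain ⟨x1, x2⟩ := hex
  obtain ⟨z1, z2⟩ := hez
  -- bounds for `c₀ x`
  have hks : (0 : ℝ) < (k : ℝ) ^ s := by positivity
  have gx1 : ((n₀ : ℝ) + 7 / 16) * A' ≤ c₀ * x := by
    have h3 : (k : ℝ) ^ s * (((n₀ : ℝ) + 7 / 16) * A') ≤ (k : ℝ) ^ s * (c₀ * x) := by
      have e1 : (k : ℝ) ^ s * (((n₀ : ℝ) + 7 / 16) * A') = ((n₀ : ℝ) + 7 / 16) * A := by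
        rw [hAs]; ring
      have e2 : (k : ℝ) ^ s * ((c₀ : ℝ) * x) = c₀ * ((k : ℝ) ^ s * x) := by ring
      rw [e1, e2]
      nlinarith
    exact le_of_mul_le_mul_left h3 hks
  have gx2 : (c₀ : ℝ) * x ≤ ((n₀ : ℝ) + 10 / 16) * A' := by
    have h3 : (k : ℝ) ^ s * (c₀ * x) ≤ (k : ℝ) ^ s * (((n₀ : ℝ) + 10 / 16) * A') := by
      have e1 : (k : ℝ) ^ s * (((n₀ : ℝ) + 10 / 16) * A') = ((n₀ : ℝ) + 10 / 16) * A := by
        rw [hAs]; ring
      have e2 : (k : ℝ) ^ s * ((c₀ : ℝ) * x) = c₀ * ((k : ℝ) ^ s * x) := by ring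
      rw [e1, e2]
      nlinarith
    exact le_of_mul_le_mul_left h3 hks
  obtain ⟨u₁, hu₁, e₁⟩ := uex k l₀ n₀ (D - s) (c₀ * x) (by omega) (by rw [← hK]; exact hcx)
    (by
      have : (n₀ : ℝ) + (k : ℝ) ^ (D - s) * n₀ ≤ c₀ * x := by
        rw [← hA']
        nlinarith
      exact_mod_cast this)
    (by
      have : (c₀ : ℝ) * x < ((n₀ : ℝ) + 1) * (k : ℝ) ^ (D - s) := by
        rw [← hA']
        nlinarith
      exact_mod_cast this)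
  obtain ⟨u₂, hu₂, e₂⟩ := uex k l₀ n₀ D (c₀ * y) (by omega) (by rw [← hK]; exact hcy)
    (by
      have : (n₀ : ℝ) + (k : ℝ) ^ D * n₀ ≤ c₀ * y := by
        rw [← hA]
        nlinarith
      exact_mod_cast this)
    (by
      have : (c₀ : ℝ) * y < ((n₀ : ℝ) + 1) * (k : ℝ) ^ D := by
        rw [← hA]
        nlinarith
      exact_mod_cast this)
  obtain ⟨u₃, hu₃, e₃⟩ := uex k l₀ n₀ D (c₀ * z) (by omega) (by rw [← hK]; exact hcz)
    (by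
      have : (n₀ : ℝ) + (k : ℝ) ^ D * n₀ ≤ c₀ * z := by
        rw [← hA]
        nlinarith
      exact_mod_cast this)
    (by
      have : (c₀ : ℝ) * z < ((n₀ : ℝ) + 1) * (k : ℝ) ^ D := by
        rw [← hA]
        nlinarith
      exact_mod_cast this)
  exact ⟨c₀, u₁, u₂, u₃, hc0, hu₁, hu₂, hu₃, e₁, e₂, e₃⟩

end Pool.Agent.N80.PY.D3
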